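import Pool.Agent.J6H2.TA.Dec

/-!
# Invariants of maximal dimension
-/

set_option autoImplicit false

namespace Pool.Agent.J6H2.TA

open Polynomial Module

section

variable {K : Type*} [Field K] {T : Type*} [AddCommGroup T] [Module K T]

/-- The vectors orthogonal to `I`. -/
def perp (B : LinearMap.BilinForm K T) (I : Submodule K T) : Submodule K T where
  carrier := {x | ∀ y ∈ I, B x y = 0}
  zero_mem' := fun y _ => by rw [map_zero, LinearMap.zero_apply]
  add_mem' := fun {a b} ha hb y hy => by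
    rw [map_add, LinearMap.add_apply, ha y hy, hb y hy, add_zero]
  smul_mem' := fun c x hx y hy => by
    rw [map_smul, LinearMap.smul_apply, hx y hy, smul_zero]

lemma mem_perp {B : LinearMap.BilinForm K T} {I : Submodule K T} {x : T} :
    x ∈ perp B I ↔ ∀ y ∈ I, B x y = 0 := Iff.rfl

variable [Module.Finite K T]

lemma isometry_pow {B : LinearMap.BilinForm K T} {f : Module.End K T}
    (hf : ∀ x y, B (f x) (f y) = B x y) (N : ℕ) (x y : T) : B ((f ^ N) x) ((f ^ N) y) = B x y := by
  induction N with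
  | zero => rfl
  | succ N ih => rw [pow_succ', Module.End.mul_apply, Module.End.mul_apply, hf, ih]

lemma aeval_pow_sub (f : Module.End K T) (N M : ℕ) :
    aeval f ((X ^ N - 1 : K[X]) ^ M) = (f ^ N - 1) ^ M := by
  rw [map_pow, map_sub, map_pow, aeval_X, map_one]

/-- **The invariants of an isometry with few roots of unity as eigenvalues.** -/
theorem core {B : LinearMap.BilinForm K T} (hs : ∀ x y, B x y = B y x)
    (hn : ∀ x, (∀ y, B x y = 0) → x = 0) {f : Module.End K T}
    (hf : ∀ x y, B (f x) (f y) = B x y) {C Q : K[X]} (hC : C.Monic) (hCQ : f.charpoly = C * Q)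
    {N M : ℕ} (hCN : C ∣ (X ^ N - 1) ^ M) (hQN : IsCoprime Q (X ^ N - 1))
    {I : Submodule K T} (hI : ∀ x ∈ I, (f ^ N) x = x) :
    finrank K I ≤ C.natDegree ∧ (C.natDegree ≤ finrank K I →
      (∃ hU : ∀ x ∈ perp B I, f x ∈ perp B I, (f.restrict hU).charpoly = Q) ∧
      ∀ x ∈ perp B I, (∀ y ∈ perp B I, B x y = 0) → x = 0) := by
  have hcop : IsCoprime C Q := (hQN.pow_right (n := M)).symm.of_isCoprime_of_dvd_left hCN
  obtain ⟨hcompl, hR, hU, hRc, hUc⟩ := split hC hCQ hcop
  set R := LinearMap.ker (aeval f C) with hRdef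
  set U := LinearMap.ker (aeval f Q) with hUdef
  have hker : ∀ r ∈ R, ((f ^ N - 1) ^ M) r = 0 := by
    intro r hr
    obtain ⟨E, hE⟩ := hCN
    rw [← aeval_pow_sub, hE, mul_comm, map_mul, Module.End.mul_apply, LinearMap.mem_ker.1 hr,
      map_zero]
  have hIR : I ≤ R := by
    intro x hx
    obtain ⟨r, hr, u, hu, hru⟩ := Submodule.mem_sup.1
      (show x ∈ R ⊔ U by rw [hcompl.sup_eq_top]; exact Submodule.mem_top)
    have h1 : aeval f ((X ^ N - 1 : K[X]) ^ (M + 1)) u = 0 := by
      have h2 : ((f ^ N - 1) ^ (M + 1)) x = 0 := by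
        rw [pow_succ, Module.End.mul_apply, LinearMap.sub_apply, Module.End.one_apply, hI x hx,
          sub_self, map_zero]
      have h3 : ((f ^ N - 1) ^ (M + 1)) r = 0 := by
        rw [pow_succ', Module.End.mul_apply, hker r hr, map_zero]
      rw [← hru, map_add, h3, zero_add] at h2
      rw [aeval_pow_sub]
      exact h2
    have h2 : u = 0 := by
      have h3 := Polynomial.disjoint_ker_aeval_of_isCoprime f
        (hQN.pow_right (n := M + 1) : IsCoprime Q ((X ^ N - 1) ^ (M + 1)))
      exact Submodule.disjoint_def.1 h3 u hu h1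
    rw [← hru, h2, add_zero]
    exact hr
  have hdim : finrank K R = C.natDegree := by
    rw [← hRc, LinearMap.charpoly_natDegree]
  refine ⟨by rw [← hdim]; exact Submodule.finrank_mono hIR, fun hle => ?_⟩
  have hIR' : I = R := Submodule.eq_of_le_of_finrank_le hIR (by rw [hdim]; exact hle)
  -- orthogonality
  have horth : ∀ u ∈ U, ∀ r ∈ R, B u r = 0 := by
    intro u hu r hr
    obtain ⟨a, c, hac⟩ := (hQN.pow_right (n := M) : IsCoprime Q ((X ^ N - 1) ^ M))
    have h1 : ((f ^ N - 1) ^ M) (aeval f c u) = u := by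
      have h2 := congrArg (fun p => aeval f p u) hac
      beta_reduce at h2
      rw [map_add, map_mul, LinearMap.add_apply, Module.End.mul_apply, LinearMap.mem_ker.1 hu,
        map_zero, zero_add, mul_comm c, map_mul, Module.End.mul_apply, aeval_pow_sub, map_one,
        Module.End.one_apply] at h2
      exact h2
    rw [← h1]
    exact orth_pow (fun x y => isometry_pow hf N x y) M _ r (hker r hr)
  have hdec : ∀ x : T, ∃ r ∈ R, ∃ u ∈ U, r + u = x := by
    intro x
    obtain ⟨r, hr, u, hu, hru⟩ := Submodule.mem_sup.1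
      (show x ∈ R ⊔ U by rw [hcompl.sup_eq_top]; exact Submodule.mem_top)
    exact ⟨r, hr, u, hu, hru⟩
  have hperp : perp B I = U := by
    rw [hIR']
    apply le_antisymm
    · intro x hx
      obtain ⟨r, hr, u, hu, rfl⟩ := hdec x
      have h1 : r = 0 := by
        apply hn
        intro y
        obtain ⟨r', hr', u', hu', rfl⟩ := hdec y
        have h2 := hx r' hr'
        rw [map_add, LinearMap.add_apply, horth u hu r' hr', add_zero] at h2
        rw [map_add, h2, zero_add, hs]
        exact horth u' hu' r hr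
      rw [h1, zero_add]
      exact hu
    · intro u hu r hr
      exact horth u hu r hr
  rw [hperp]
  refine ⟨⟨hU, hUc⟩, fun x hx h => ?_⟩
  apply hn
  intro y
  obtain ⟨r, hr, u, hu, rfl⟩ := hdec y
  rw [map_add, h u hu, add_zero]
  exact horth x hx r hr

end

section two

variable {K : Type*} [Field K] [CharZero K] {T : Type*} [AddCommGroup T] [Module K T]
  [Module.Finite K T]

/-- **The discriminant criterion.** -/
theorem criterion {B : LinearMap.BilinForm K T} (hs : ∀ x y, B x y = B y x)
    (hn : ∀ x, (∀ y, B x y = 0) → x = 0) {f g : Module.End K T}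
    (hf : ∀ x y, B (f x) (f y) = B x y) (hg : ∀ x y, B (g x) (g y) = B x y)
    {C Q C' Q' : K[X]} (hC : C.Monic) (hCQ : f.charpoly = C * Q) (hC' : C'.Monic)
    (hCQ' : g.charpoly = C' * Q') (hm : C.natDegree = C'.natDegree)
    {N M N' M' : ℕ} (hCN : C ∣ (X ^ N - 1) ^ M) (hQN : IsCoprime Q (X ^ N - 1))
    (hCN' : C' ∣ (X ^ N' - 1) ^ M') (hQN' : IsCoprime Q' (X ^ N' - 1))
    {I : Submodule K T} (hI : ∀ x ∈ I, (f ^ N) x = x) (hI' : ∀ x ∈ I, (g ^ N') x = x)
    (hD : ¬ IsSquare (Q.eval 1 * Q.eval (-1) * (Q'.eval 1 * Q'.eval (-1)))) :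
    finrank K I < C.natDegree := by
  by_contra hcon
  push Not at hcon
  obtain ⟨⟨hU, h1⟩, h2⟩ := (core hs hn hf hC hCQ hCN hQN hI).2 hcon
  obtain ⟨⟨hU', h1'⟩, -⟩ := (core hs hn hg hC' hCQ' hCN' hQN' hI').2 (hm ▸ hcon)
  apply hD
  rw [← h1, ← h1']
  let B' : LinearMap.BilinForm K (perp B I) := LinearMap.mk₂ K
    (fun x y : perp B I => B x y)
    (fun x y z => by rw [Submodule.coe_add, map_add, LinearMap.add_apply])
    (fun r x y => by rw [Submodule.coe_smul, map_smul, LinearMap.smul_apply])
    (fun x y z => by rw [Submodule.coe_add, map_add])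
    (fun r x y => by rw [Submodule.coe_smul, map_smul])
  have hB' : ∀ x y : perp B I, B' x y = B x y := fun x y => rfl
  refine isSquare_two (B := B') (fun x y => ?_) (fun x hx => ?_) (fun x y => ?_) (fun x y => ?_)
  · rw [hB', hB', hs]
  · apply Subtype.ext
    apply h2 x x.2
    intro y hy
    exact hx ⟨y, hy⟩
  · rw [hB', hB']
    exact hf x y
  · rw [hB', hB']
    exact hg x y

end two

end Pool.Agent.J6H2.TA
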