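import Pool.Agent.J6H2.TA.Defs
import Pool.Agent.J6H2.TA.Core

/-!
# The discriminant criterion for the Tate conjecture
-/

set_option autoImplicit false

namespace Pool.Agent.J6H2.TA

open Polynomial Module

section poly

/-- The cyclotomic part divides a power of `X ^ N - 1`. -/
lemma Place.exists_dvd {G : Type} (v : Place G) : ∃ N₀ M : ℕ, 0 < N₀ ∧
    ∀ k : ℕ, v.C ∣ (X ^ (N₀ * k) - 1) ^ M := by
  classical
  have hspl : (v.C.map (algebraMap ℚ ℂ)).Splits := IsAlgClosed.splits _
  set s := (v.C.map (algebraMap ℚ ℂ)).roots with hs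
  have hex : ∀ z ∈ s, ∃ n : ℕ, 0 < n ∧ z ^ n = 1 := by
    intro z hz
    apply v.roots_C
    have h1 := isRoot_of_mem_roots hz
    rwa [IsRoot.def, eval_map_algebraMap] at h1
  have hN : ∃ N : ℕ, 0 < N ∧ ∀ z ∈ s, z ^ N = 1 := by
    clear_value s
    clear hs hspl
    induction s using Multiset.induction_on with
    | empty => exact ⟨1, one_pos, fun z hz => absurd hz (Multiset.notMem_zero z)⟩
    | cons a t ih =>
      obtain ⟨N, hN, h⟩ := ih fun z hz => hex z (Multiset.mem_cons_of_mem hz)
      obtain ⟨n, hn, hn'⟩ := hex a (Multiset.mem_cons_self a t)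
      refine ⟨N * n, Nat.mul_pos hN hn, fun z hz => ?_⟩
      rcases Multiset.mem_cons.1 hz with rfl | hz
      · rw [mul_comm, pow_mul, hn', one_pow]
      · rw [pow_mul, h z hz, one_pow]
  obtain ⟨N, hN, hNs⟩ := hN
  refine ⟨N, Multiset.card s, hN, fun k => ?_⟩
  rw [← Polynomial.map_dvd_map' (algebraMap ℚ ℂ)]
  have h1 : v.C.map (algebraMap ℚ ℂ) = (s.map fun z => X - Polynomial.C z).prod :=
    hspl.eq_prod_roots_of_monic (v.monic.map _)
  rw [h1, Polynomial.map_pow, Polynomial.map_sub, Polynomial.map_pow, map_X, Polynomial.map_one]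
  have h2 : ∀ t : Multiset ℂ, (∀ z ∈ t, z ^ N = 1) → (t.map fun z => X - Polynomial.C z).prod ∣
      (X ^ (N * k) - 1 : ℂ[X]) ^ Multiset.card t := by
    intro t ht
    induction t using Multiset.induction_on with
    | empty => simp
    | cons a t ih =>
      rw [Multiset.map_cons, Multiset.prod_cons, Multiset.card_cons, pow_succ']
      refine mul_dvd_mul ?_ (ih fun z hz => ht z (Multiset.mem_cons_of_mem hz))
      rw [dvd_iff_isRoot, IsRoot.def, eval_sub, eval_pow, eval_X, eval_one, pow_mul,
        ht a (Multiset.mem_cons_self a t), one_pow, sub_self]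
  exact h2 s hNs

lemma Place.coprime {G : Type} (v : Place G) {N : ℕ} (hN : 0 < N) :
    IsCoprime v.Q (X ^ N - 1) := by
  refine (Polynomial.isCoprime_iff_aeval_ne_zero_of_isAlgClosed ℚ ℂ _ _).2 fun z => ?_
  by_contra hcon
  push Not at hcon
  apply v.roots_Q z hcon.1 N hN
  have h1 := hcon.2
  rwa [map_sub, map_pow, aeval_X, map_one, sub_eq_zero] at h1

end poly

namespace SurfaceData

variable {G : Type} [Group G] {K : Type} [Field K] (D : SurfaceData G K)

lemma mem_trans {x : D.V} : x ∈ D.trans ↔ ∀ y ∈ D.NS, D.form x y = 0 := Iff.rfl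

lemma mem_invariants {H : Subgroup G} {x : D.V} :
    x ∈ D.invariants H ↔ ∀ h ∈ H, D.rep h x = x := Iff.rfl

lemma rep_inv (g : G) (x : D.V) : D.rep g (D.rep g⁻¹ x) = x := by
  rw [← Module.End.mul_apply, ← map_mul, mul_inv_cancel, map_one, Module.End.one_apply]

lemma form_inv (g : G) (x y : D.V) : D.form (D.rep g x) y = D.form x (D.rep g⁻¹ y) := by
  have h1 := D.isometry g x (D.rep g⁻¹ y)
  rw [rep_inv] at h1
  exact h1

/-- The orthogonal decomposition. -/
lemma exists_decomp (x : D.V) : ∃ n ∈ D.NS, x - n ∈ D.trans := by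
  let B : D.NS →ₗ[K] Module.Dual K D.NS := LinearMap.mk₂ K (fun x y : D.NS => D.form x y)
    (fun x y z => by rw [Submodule.coe_add, map_add, LinearMap.add_apply])
    (fun r x y => by rw [Submodule.coe_smul, map_smul, LinearMap.smul_apply])
    (fun x y z => by rw [Submodule.coe_add, map_add])
    (fun r x y => by rw [Submodule.coe_smul, map_smul])
  have hB : ∀ x y : D.NS, B x y = D.form x y := fun x y => rfl
  have hinj : Function.Injective B := by
    rw [← LinearMap.ker_eq_bot, LinearMap.ker_eq_bot']
    intro x hx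
    exact Subtype.ext (D.nondeg_NS x x.2 fun y hy => by
      rw [← hB x ⟨y, hy⟩, hx, LinearMap.zero_apply])
  let e : D.NS ≃ₗ[K] Module.Dual K D.NS :=
    LinearEquiv.ofInjectiveOfFinrankEq B hinj Subspace.dual_finrank_eq.symm
  obtain ⟨n, hn⟩ := e.surjective ((D.form x).domRestrict D.NS)
  refine ⟨n, n.2, fun y hy => ?_⟩
  have h1 : D.form n y = D.form x y := by
    have h2 := congrArg (fun F => F ⟨y, hy⟩) hn
    exact h2
  rw [map_sub, LinearMap.sub_apply, h1, sub_self]

/-- The form is nondegenerate on the transcendental part. -/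
lemma nondeg_trans {x : D.V} (hx : x ∈ D.trans) (h : ∀ y ∈ D.trans, D.form x y = 0) : x = 0 := by
  apply D.nondeg
  intro y
  obtain ⟨n, hn, hyn⟩ := D.exists_decomp y
  have h1 := h _ hyn
  rw [map_sub, hx n hn, sub_zero] at h1
  exact h1

lemma trans_stable (g : G) {x : D.V} (hx : x ∈ D.trans) : D.rep g x ∈ D.trans := by
  intro y hy
  rw [form_inv]
  exact hx _ (D.stable _ y hy)

/-- The invariants decompose. -/
lemma invariants_decomp {H : Subgroup G} {x : D.V} (hx : x ∈ D.invariants H) :
    ∃ n ∈ D.invariants H ⊓ D.NS, ∃ t ∈ D.invariants H ⊓ D.trans, n + t = x := by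
  obtain ⟨n, hn, hxn⟩ := D.exists_decomp x
  have h1 : n ∈ D.invariants H := by
    intro h hh
    have h2 : D.rep h n - n ∈ D.NS := D.NS.sub_mem (D.stable h n hn) hn
    have h3 : D.rep h n - n = 0 := by
      apply D.nondeg_NS _ h2
      intro y hy
      have h4 : ∀ y ∈ D.NS, D.form n y = D.form x y := by
        intro y hy
        have h5 := hxn y hy
        rw [map_sub, LinearMap.sub_apply, sub_eq_zero] at h5
        exact h5.symm
      rw [map_sub, LinearMap.sub_apply, form_inv, h4 _ (D.stable _ y hy), ← form_inv, hx h hh,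
        h4 y hy, sub_self]
    exact sub_eq_zero.1 h3
  exact ⟨n, ⟨h1, hn⟩, x - n, ⟨(D.invariants H).sub_mem hx h1, hxn⟩, add_sub_cancel n x⟩

lemma finrank_invariants_le (H : Subgroup G) : finrank K (D.invariants H) ≤
    finrank K ↥(D.invariants H ⊓ D.NS) + finrank K ↥(D.invariants H ⊓ D.trans) := by
  refine le_trans (Submodule.finrank_mono ?_) (Submodule.finrank_add_le_finrank_add_finrank _ _)
  intro x hx
  obtain ⟨n, hn, t, ht, rfl⟩ := D.invariants_decomp hx
  exact Submodule.add_mem_sup hn ht

lemma defect_le (H : Subgroup G) : D.defect H ≤ finrank K ↥(D.invariants H ⊓ D.trans) := by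
  unfold defect
  have := D.finrank_invariants_le H
  omega

lemma tateOver_of_defect {H : Subgroup G} (h : D.defect H = 0) : D.TateOver H := by
  unfold defect at h
  have h1 : D.invariants H ⊓ D.NS = D.invariants H := by
    apply Submodule.eq_of_le_of_finrank_le inf_le_left
    omega
  intro x hx
  rw [← h1] at hx
  exact hx.2

variable [CharZero K]

/-- **The discriminant criterion for the Tate conjecture.** -/
theorem defectBelow {v w : Place G} (hv : D.HasPlace v) (hw : D.HasPlace w) {m : ℕ}
    (hvm : v.C.natDegree = m) (hwm : w.C.natDegree = m)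
    (hD : ¬ IsSquare ((v.disc * w.disc : ℚ) : K)) : D.DefectBelow m := by
  intro H hH
  have key : finrank K ↥(D.invariants H ⊓ D.trans) < m := by
    obtain ⟨sv, hcv⟩ := hv
    obtain ⟨sw, hcw⟩ := hw
    obtain ⟨k, hk, -, hkv⟩ := Subgroup.exists_pow_mem_of_index_ne_zero hH.index_ne_zero v.frob
    obtain ⟨k', hk', -, hkw⟩ := Subgroup.exists_pow_mem_of_index_ne_zero hH.index_ne_zero w.frob
    obtain ⟨N, M, hN, hCN⟩ := v.exists_dvd
    obtain ⟨N', M', hN', hCN'⟩ := w.exists_dvd
    let B : LinearMap.BilinForm K D.trans := LinearMap.mk₂ K (fun x y : D.trans => D.form x y)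
      (fun x y z => by rw [Submodule.coe_add, map_add, LinearMap.add_apply])
      (fun r x y => by rw [Submodule.coe_smul, map_smul, LinearMap.smul_apply])
      (fun x y z => by rw [Submodule.coe_add, map_add])
      (fun r x y => by rw [Submodule.coe_smul, map_smul])
    have hB : ∀ x y : D.trans, B x y = D.form x y := fun x y => rfl
    have hpow : ∀ (g : G) (hg : ∀ x ∈ D.trans, D.rep g x ∈ D.trans) (n : ℕ) (x : D.trans),
        ((((D.rep g).restrict hg) ^ n) x : D.V) = D.rep (g ^ n) x := by
      intro g hg n x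
      induction n with
      | zero => rw [pow_zero, pow_zero, map_one]; rfl
      | succ n ih =>
        rw [pow_succ', Module.End.mul_apply, pow_succ', map_mul, Module.End.mul_apply, ← ih]
        rfl
    have hfix : ∀ (g : G) (hg : ∀ x ∈ D.trans, D.rep g x ∈ D.trans) (n k : ℕ), g ^ k ∈ H →
        ∀ x ∈ (D.invariants H).comap D.trans.subtype,
          (((D.rep g).restrict hg) ^ (n * k)) x = x := by
      intro g hg n k hgk x hx
      apply Subtype.ext
      rw [hpow]
      exact hx _ (by rw [mul_comm, pow_mul]; exact H.pow_mem hgk n)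
    have hmap : ∀ (p : ℚ[X]) (q : ℚ), (p.map (algebraMap ℚ K)).eval (q : K) = ((p.eval q : ℚ) : K) := by
      intro p q
      rw [eval_map_algebraMap]
      have := Polynomial.aeval_algebraMap_apply K q p
      simp only [eq_ratCast] at this
      rw [this]
      simp
    have h1 := criterion (B := B) (fun x y => by rw [hB, hB, D.symm])
      (fun x hx => Subtype.ext (D.nondeg_trans x.2 fun y hy => hx ⟨y, hy⟩))
      (f := (D.rep v.frob).restrict sv) (g := (D.rep w.frob).restrict sw)
      (fun x y => by rw [hB, hB]; exact D.isometry v.frob x y)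
      (fun x y => by rw [hB, hB]; exact D.isometry w.frob x y)
      (v.monic.map (algebraMap ℚ K)) (Q := v.Q.map (algebraMap ℚ K))
      (by rw [hcv, Polynomial.map_mul])
      (w.monic.map (algebraMap ℚ K)) (Q' := w.Q.map (algebraMap ℚ K))
      (by rw [hcw, Polynomial.map_mul])
      (by rw [natDegree_map, natDegree_map, hvm, hwm])
      (N := N * k) (M := M) (N' := N' * k') (M' := M')
      (by
        have h2 := Polynomial.map_dvd (algebraMap ℚ K) (hCN k)
        rwa [Polynomial.map_pow, Polynomial.map_sub, Polynomial.map_pow, map_X,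
          Polynomial.map_one] at h2)
      (by
        have h2 := (v.coprime (Nat.mul_pos hN hk)).map (Polynomial.mapRingHom (algebraMap ℚ K))
        simpa using h2)
      (by
        have h2 := Polynomial.map_dvd (algebraMap ℚ K) (hCN' k')
        rwa [Polynomial.map_pow, Polynomial.map_sub, Polynomial.map_pow, map_X,
          Polynomial.map_one] at h2)
      (by
        have h2 := (w.coprime (Nat.mul_pos hN' hk')).map (Polynomial.mapRingHom (algebraMap ℚ K))
        simpa using h2)
      (I := (D.invariants H).comap D.trans.subtype)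
      (hfix v.frob sv N k hkv) (hfix w.frob sw N' k' hkw)
      (by
        intro hsq
        apply hD
        have h2 := hmap v.Q 1
        have h3 := hmap v.Q (-1)
        have h4 := hmap w.Q 1
        have h5 := hmap w.Q (-1)
        rw [Rat.cast_one] at h2 h4
        rw [Rat.cast_neg, Rat.cast_one] at h3 h5
        rw [h2, h3, h4, h5] at hsq
        unfold Place.disc
        rw [Rat.cast_mul, Rat.cast_mul, Rat.cast_mul]
        exact hsq)
    rw [natDegree_map, hvm] at h1
    refine lt_of_le_of_lt ?_ h1
    -- the two subspaces are isomorphic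
    have h2 : D.invariants H ⊓ D.trans = ((D.invariants H).comap D.trans.subtype).map
        D.trans.subtype := by
      rw [Submodule.map_comap_subtype, inf_comm]
    rw [h2]
    exact Submodule.finrank_map_le _ _
  refine ⟨lt_of_le_of_lt (D.defect_le H) key, fun hm1 => D.tateOver_of_defect ?_⟩
  have := D.defect_le H
  omega

end SurfaceData

end Pool.Agent.J6H2.TA
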