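import Pool.Agent.J6H2.TA.Lin

/-!
# The decomposition of a quadratic space under an isometry
-/

set_option autoImplicit false

namespace Pool.Agent.J6H2.TA

open Polynomial TensorProduct

section charpoly

variable {K : Type*} [Field K] {T : Type*} [AddCommGroup T] [Module K T] [Module.Finite K T]

/-- The characteristic polynomial for a stable decomposition. -/
lemma charpoly_of_isCompl {F : Module.End K T} {R U : Submodule K T} (h : IsCompl R U)
    (hR : ∀ x ∈ R, F x ∈ R) (hU : ∀ x ∈ U, F x ∈ U) :
    F.charpoly = (F.restrict hR).charpoly * (F.restrict hU).charpoly := by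
  let e := Submodule.prodEquivOfIsCompl R U h
  rw [← LinearMap.charpoly_prodMap, ← LinearEquiv.charpoly_conj e]
  congr 1
  apply LinearMap.ext
  intro x
  obtain ⟨⟨r, u⟩, rfl⟩ := e.surjective x
  rw [LinearEquiv.conj_apply_apply, LinearEquiv.symm_apply_apply]
  change F ((r : T) + u) = ((F r : T) + F u)
  rw [map_add]

/-- The roots of the characteristic polynomial are roots of each annihilating polynomial. -/
lemma root_of_aeval {F : Module.End K T} {g : K[X]} (hg : aeval F g = 0)
    {α : AlgebraicClosure K} (hα : aeval α F.charpoly = 0) : aeval α g = 0 := by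
  have h1 : Module.End.HasEigenvalue (F.baseChange (AlgebraicClosure K) :
      Module.End (AlgebraicClosure K) (AlgebraicClosure K ⊗[K] T)) α := by
    rw [Module.End.hasEigenvalue_iff_isRoot_charpoly, LinearMap.charpoly_baseChange,
      IsRoot.def, eval_map_algebraMap]
    exact hα
  obtain ⟨x, hx⟩ := h1.exists_hasEigenvector
  have h2 := Module.End.aeval_apply_of_hasEigenvector (p := g.map (algebraMap K
    (AlgebraicClosure K))) hx
  have h3 : aeval (F.baseChange (AlgebraicClosure K)) g = Module.End.baseChangeHom K
      (AlgebraicClosure K) T (aeval F g) := by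
    rw [← Polynomial.aeval_algHom_apply]
    rfl
  rw [Polynomial.aeval_map_algebraMap, h3, hg, map_zero, LinearMap.zero_apply,
    eval_map_algebraMap] at h2
  exact (smul_eq_zero.1 h2.symm).resolve_right hx.2

lemma coprime_charpoly {F : Module.End K T} {g p : K[X]} (hg : aeval F g = 0)
    (h : IsCoprime g p) : IsCoprime F.charpoly p := by
  refine (Polynomial.isCoprime_iff_aeval_ne_zero_of_isAlgClosed K (AlgebraicClosure K) _ _).2 ?_
  intro α
  have h' := (Polynomial.isCoprime_iff_aeval_ne_zero_of_isAlgClosed K (AlgebraicClosure K) _ _).1 h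
  by_contra hcon
  push Not at hcon
  rcases h' α with h1 | h1
  · exact h1 (root_of_aeval hg hcon.1)
  · exact h1 hcon.2

/-- The decomposition for a factorisation of the characteristic polynomial into coprime factors. -/
lemma split {F : Module.End K T} {C Q : K[X]} (hC : C.Monic) (hCQ : F.charpoly = C * Q)
    (hcop : IsCoprime C Q) :
    IsCompl (LinearMap.ker (aeval F C)) (LinearMap.ker (aeval F Q)) ∧
      ∃ (hR : ∀ x ∈ LinearMap.ker (aeval F C), F x ∈ LinearMap.ker (aeval F C))
      (hU : ∀ x ∈ LinearMap.ker (aeval F Q), F x ∈ LinearMap.ker (aeval F Q)),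
      (F.restrict hR).charpoly = C ∧ (F.restrict hU).charpoly = Q := by
  have hst : ∀ (g : K[X]), ∀ x ∈ LinearMap.ker (aeval F g), F x ∈ LinearMap.ker (aeval F g) := by
    intro g x hx
    rw [LinearMap.mem_ker] at hx ⊢
    have h1 : aeval F g * F = F * aeval F g := by
      have h2 := congrArg (aeval F) (mul_comm g X)
      rwa [map_mul, map_mul, aeval_X] at h2
    have h3 := congrArg (fun E => E x) h1
    beta_reduce at h3
    rw [Module.End.mul_apply, Module.End.mul_apply, hx, map_zero] at h3
    exact h3
  have hcompl : IsCompl (LinearMap.ker (aeval F C)) (LinearMap.ker (aeval F Q)) := by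
    constructor
    · exact Polynomial.disjoint_ker_aeval_of_isCoprime F hcop
    · rw [codisjoint_iff, Polynomial.sup_ker_aeval_eq_ker_aeval_mul_of_coprime F hcop, ← hCQ,
        LinearMap.aeval_self_charpoly, LinearMap.ker_zero]
  have hres : ∀ (g : K[X]) (W : Submodule K T) (hW : ∀ x ∈ W, F x ∈ W) (x : W),
      ((aeval (F.restrict hW) g x : W) : T) = aeval F g (x : T) := by
    intro g W hW x
    induction g using Polynomial.induction_on' with
    | add f g hf hg => rw [map_add, map_add, LinearMap.add_apply, LinearMap.add_apply,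
        Submodule.coe_add, hf, hg]
    | monomial n a =>
      rw [aeval_monomial, aeval_monomial, Module.End.mul_apply, Module.End.mul_apply,
        Module.algebraMap_end_apply, Module.algebraMap_end_apply, Submodule.coe_smul]
      congr 1
      induction n with
      | zero => rfl
      | succ n ih =>
        rw [pow_succ', pow_succ', Module.End.mul_apply, Module.End.mul_apply, ← ih]
        rfl
  have hk : ∀ g : K[X], aeval (F.restrict (hst g)) g = 0 := by
    intro g
    apply LinearMap.ext
    intro x
    apply Subtype.ext
    rw [hres]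
    exact x.2
  have h1 := charpoly_of_isCompl hcompl (hst C) (hst Q)
  set A := (F.restrict (hst C)).charpoly with hA
  set B := (F.restrict (hst Q)).charpoly with hB
  have hAQ : IsCoprime A Q := coprime_charpoly (hk C) hcop
  have hBC : IsCoprime B C := coprime_charpoly (hk Q) hcop.symm
  have h2 : A * B = C * Q := by rw [← h1, hCQ]
  have h3 : A ∣ C := hAQ.dvd_of_dvd_mul_right ⟨B, h2.symm⟩
  have h4 : C ∣ A := hBC.symm.dvd_of_dvd_mul_right ⟨Q, h2⟩
  have h5 : A = C := Polynomial.eq_of_monic_of_associated (LinearMap.charpoly_monic _) hC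
    (associated_of_dvd_dvd h3 h4)
  refine ⟨hcompl, hst C, hst Q, h5, ?_⟩
  rw [h5] at h2
  exact mul_left_cancel₀ hC.ne_zero h2

end charpoly

section form

variable {K : Type*} [Field K] {T : Type*} [AddCommGroup T] [Module K T]

/-- Orthogonality of generalised eigenspaces. -/
lemma orth_pow {B : LinearMap.BilinForm K T} {w : Module.End K T}
    (hw : ∀ x y, B (w x) (w y) = B x y) : ∀ (M : ℕ) (x y : T), ((w - 1) ^ M) y = 0 →
      B (((w - 1) ^ M) x) y = 0
  | 0, x, y, h => by
    rw [pow_zero, Module.End.one_apply] at h
    rw [h, map_zero]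
  | M + 1, x, y, h => by
    have h1 : ((w - 1) ^ (M + 1)) x = w (((w - 1) ^ M) x) - ((w - 1) ^ M) x := by
      rw [pow_succ', Module.End.mul_apply, LinearMap.sub_apply, Module.End.one_apply]
    have hcomm : w * (w - 1) ^ M = (w - 1) ^ M * w := by
      have : Commute w (w - 1) := (Commute.refl w).sub_right (Commute.one_right w)
      exact this.pow_right M
    have h2 : w (((w - 1) ^ M) x) = ((w - 1) ^ M) (w x) := by
      rw [← Module.End.mul_apply, hcomm, Module.End.mul_apply]
    have h3 : ((w - 1) ^ M) ((w - 1) y) = 0 := by
      rw [← Module.End.mul_apply, ← pow_succ]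
      exact h
    have h4 := orth_pow hw M (w x) ((w - 1) y) h3
    rw [LinearMap.sub_apply, Module.End.one_apply, map_sub, ← h2, hw] at h4
    rw [h1, map_sub, LinearMap.sub_apply]
    linear_combination -h4

end form

end Pool.Agent.J6H2.TA
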