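import Mathlib

/-!
# The cohomology of a surface as a Galois representation with a quadratic form: definitions
-/

set_option autoImplicit false

namespace Pool.Agent.J6H2.TA

open Polynomial Module

/-- The formal properties of the cohomology `V = H²(X̄, ℚ_ℓ(1))` of a smooth projective surface `X`
over a finitely generated field `k` with absolute Galois group `G`, for a prime `ℓ` different from the
characteristic (and `K = ℚ_ℓ`): a finite dimensional vector space with a nondegenerate symmetric
bilinear form (the cup product; Poincaré duality) and a representation of `G` by isometries; and the
subspace `NS`, spanned by the classes of the divisors on `X̄`, which is stable under `G` and on which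
the form is nondegenerate (numerical and homological equivalence coincide for divisors). -/
structure SurfaceData (G : Type) [Group G] (K : Type) [Field K] where
  /-- the vector space -/
  V : Type
  [addCommGroup : AddCommGroup V]
  [module : Module K V]
  [finite : Module.Finite K V]
  /-- the cup product -/
  form : V →ₗ[K] V →ₗ[K] K
  symm : ∀ x y, form x y = form y x
  nondeg : ∀ x, (∀ y, form x y = 0) → x = 0
  /-- the action of the Galois group -/
  rep : G →* Module.End K V
  isometry : ∀ g x y, form (rep g x) (rep g y) = form x y
  /-- the span of the classes of divisors -/
  NS : Submodule K V
  stable : ∀ g, ∀ x ∈ NS, rep g x ∈ NS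
  nondeg_NS : ∀ x ∈ NS, (∀ y ∈ NS, form x y = 0) → x = 0

attribute [instance] SurfaceData.addCommGroup SurfaceData.module SurfaceData.finite

namespace SurfaceData

variable {G : Type} [Group G] {K : Type} [Field K] (D : SurfaceData G K)

/-- The transcendental part `T` of `V`: the classes orthogonal to all divisors. -/
def trans : Submodule K D.V where
  carrier := {x | ∀ y ∈ D.NS, D.form x y = 0}
  zero_mem' := fun y _ => by rw [map_zero, LinearMap.zero_apply]
  add_mem' := fun {a b} ha hb y hy => by
    rw [map_add, LinearMap.add_apply, ha y hy, hb y hy, add_zero]
  smul_mem' := fun c x hx y hy => by
    rw [map_smul, LinearMap.smul_apply, hx y hy, smul_zero]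

/-- The classes fixed by the subgroup `H` of `G`. If `H` is the Galois group of the finite extension
`k'` of `k`, this is the space of the classes invariant under the Galois group of `k'`. -/
def invariants (H : Subgroup G) : Submodule K D.V where
  carrier := {x | ∀ h ∈ H, D.rep h x = x}
  zero_mem' := fun h _ => map_zero _
  add_mem' := fun {a b} ha hb h hh => by rw [map_add, ha h hh, hb h hh]
  smul_mem' := fun c x hx h hh => by rw [map_smul, hx h hh]

/-- The Tate conjecture for the divisors on `X` over the extension with the group `H`: all invariant
classes are combinations of classes of divisors. -/
def TateOver (H : Subgroup G) : Prop := D.invariants H ≤ D.NS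

/-- The dimension of the space of invariant classes modulo those which are combinations of classes of
divisors; this is the dimension of the space of invariants of `V_ℓ Br(X̄)`. -/
noncomputable def defect (H : Subgroup G) : ℕ :=
  finrank K (D.invariants H) - finrank K ↥(D.invariants H ⊓ D.NS)

end SurfaceData

/-- A closed point `v` of a model of `X` over a domain of finite type, with good reduction: the element
`frob` of `G` is a Frobenius element at `v`, and `C * Q` is its characteristic polynomial on the
transcendental part of `H²(X̄, ℚ_ℓ(1))` (it has rational coefficients and does not depend on `ℓ`),
where all roots of the monic polynomial `C` are roots of unity, and no root of `Q` is a root of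
unity. -/
structure Place (G : Type) where
  /-- the Frobenius element -/
  frob : G
  /-- the cyclotomic part of the characteristic polynomial -/
  C : ℚ[X]
  /-- the other part of the characteristic polynomial -/
  Q : ℚ[X]
  monic : C.Monic
  roots_C : ∀ z : ℂ, aeval z C = 0 → ∃ n : ℕ, 0 < n ∧ z ^ n = 1
  roots_Q : ∀ z : ℂ, aeval z Q = 0 → ∀ n : ℕ, 0 < n → z ^ n ≠ 1

/-- The rational number `Q(1) * Q(-1)`. -/
noncomputable def Place.disc {G : Type} (v : Place G) : ℚ := v.Q.eval 1 * v.Q.eval (-1)

/-- The polynomial `C * Q` of the place `v` is the characteristic polynomial of the Frobenius element of
`v` on the transcendental part. (For surfaces over number fields this holds for all `ℓ` different from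
the residue characteristic of `v`.) -/
def SurfaceData.HasPlace {G : Type} [Group G] {K : Type} [Field K] [CharZero K]
    (D : SurfaceData G K) (v : Place G) : Prop :=
  ∃ h : ∀ x ∈ D.trans, D.rep v.frob x ∈ D.trans,
    ((D.rep v.frob).restrict h).charpoly = (v.C * v.Q).map (algebraMap ℚ K)

/-- Over all finite extensions (subgroups `H` of finite index) the defect of the Tate conjecture is less
than `m`; for `m = 1` the Tate conjecture holds over all finite extensions. -/
def SurfaceData.DefectBelow {G : Type} [Group G] {K : Type} [Field K] (D : SurfaceData G K)
    (m : ℕ) : Prop :=
  ∀ H : Subgroup G, H.FiniteIndex → D.defect H < m ∧ (m = 1 → D.TateOver H)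

end Pool.Agent.J6H2.TA
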