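import Pool.Agent.J6H2.TA.Loc

/-!
# The primes which split completely in a multiquadratic field
-/

set_option autoImplicit false

namespace Pool.Agent.J6H2.TA

open NumberField Pool.Agent.W401.Cheb Polynomial Filter Topology Pool.Agent.J6H2.CL

/-- The product of the elements of each nonempty subset of a family of rational numbers is not a
square: the family is independent modulo squares. -/
def IndependentModSquares {n : ℕ} (a : Fin n → ℚ) : Prop :=
  ∀ J : Finset (Fin n), J.Nonempty → ¬ IsSquare (∏ j ∈ J, a j)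

section kummer

variable {L : Type} [Field L] [NumberField L]

/-- The Galois group of a field containing the square roots of an independent family is large. -/
theorem card_gal_ge [IsGalois ℚ L] {n : ℕ} {a : Fin n → ℚ} (ha : IndependentModSquares a)
    {s : Fin n → L} (hs : ∀ j, s j ^ 2 = algebraMap ℚ L (a j)) : 2 ^ n ≤ Nat.card Gal(L/ℚ) := by
  classical
  have ha0 : ∀ j, a j ≠ 0 := by
    intro j h0
    apply ha {j} (Finset.singleton_nonempty j)
    rw [Finset.prod_singleton, h0]
    exact ⟨0, by ring⟩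
  have hs0 : ∀ j, s j ≠ 0 := by
    intro j h0
    have h1 := hs j
    rw [h0, zero_pow two_ne_zero] at h1
    exact ha0 j ((map_eq_zero _).1 h1.symm)
  have hsgn : ∀ j (σ : Gal(L/ℚ)), σ (s j) = s j ∨ σ (s j) = -s j := by
    intro j σ
    apply sq_eq_sq_iff_eq_or_eq_neg.1
    rw [← map_pow, hs, AlgEquiv.commutes]
  -- the characters
  let χ : Fin n → (Gal(L/ℚ) →* L) := fun j =>
    { toFun := fun σ => σ (s j) / s j
      map_one' := by
        rw [AlgEquiv.one_apply]
        exact div_self (hs0 j)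
      map_mul' := fun σ τ => by
        rw [AlgEquiv.mul_apply]
        rcases hsgn j τ with h | h
        · rw [h, div_self (hs0 j), mul_one]
        · rw [h, map_neg, neg_div, neg_div, div_self (hs0 j)]
          ring }
  have hχ : ∀ j σ, χ j σ = σ (s j) / s j := fun j σ => rfl
  let X : Finset (Fin n) → (Gal(L/ℚ) →* L) := fun J => ∏ j ∈ J, χ j
  have hX : ∀ J σ, X J σ = σ (∏ j ∈ J, s j) / ∏ j ∈ J, s j := by
    intro J σ
    change (∏ j ∈ J, χ j) σ = _
    rw [MonoidHom.finsetProd_apply, map_prod, ← Finset.prod_div_distrib]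
    exact Finset.prod_congr rfl fun j _ => hχ j σ
  have hprod0 : ∀ J : Finset (Fin n), ∏ j ∈ J, s j ≠ 0 := fun J =>
    Finset.prod_ne_zero_iff.2 fun j _ => hs0 j
  have hinj : Function.Injective X := by
    intro J J' h
    by_contra hne
    -- the product of the square roots over the symmetric difference is rational
    have h1 : ∀ σ : Gal(L/ℚ), σ ((∏ j ∈ J, s j) * ∏ j ∈ J', s j) =
        (∏ j ∈ J, s j) * ∏ j ∈ J', s j := by
      intro σ
      have h2 : X J σ = X J' σ := by rw [h]
      have h3 : X J' σ * X J' σ = 1 := by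
        rw [hX]
        have h4 : (σ (∏ j ∈ J', s j)) ^ 2 = (∏ j ∈ J', s j) ^ 2 := by
          rw [← map_pow, ← Finset.prod_pow]
          simp_rw [hs]
          rw [← map_prod, AlgEquiv.commutes]
        rw [← mul_div_mul_comm, ← sq, ← sq, h4]
        exact div_self (pow_ne_zero 2 (hprod0 J'))
      rw [map_mul]
      have h5 : σ (∏ j ∈ J, s j) = X J σ * ∏ j ∈ J, s j := by
        rw [hX, div_mul_cancel₀ _ (hprod0 J)]
      have h6 : σ (∏ j ∈ J', s j) = X J' σ * ∏ j ∈ J', s j := by
        rw [hX, div_mul_cancel₀ _ (hprod0 J')]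
      rw [h5, h6, h2]
      linear_combination ((∏ j ∈ J, s j) * ∏ j ∈ J', s j) * h3
    obtain ⟨q, hq⟩ : ∃ q : ℚ, algebraMap ℚ L q = (∏ j ∈ J, s j) * ∏ j ∈ J', s j := by
      have h2 := (IsGalois.mem_bot_iff_fixed (F := ℚ) ((∏ j ∈ J, s j) * ∏ j ∈ J', s j)).2 h1
      exact IntermediateField.mem_bot.1 h2
    have h3 : q ^ 2 = (∏ j ∈ J, a j) * ∏ j ∈ J', a j := by
      apply (algebraMap ℚ L).injective
      rw [map_pow, hq, mul_pow, ← Finset.prod_pow, ← Finset.prod_pow, map_mul, map_prod, map_prod]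
      simp_rw [hs]
    have h4 : (∏ j ∈ J, a j) * ∏ j ∈ J', a j =
        (∏ j ∈ (J \ J') ∪ (J' \ J), a j) * (∏ j ∈ J ∩ J', a j) ^ 2 := by
      rw [Finset.prod_union (Finset.disjoint_left.2 fun x hx hx' => by
        rw [Finset.mem_sdiff] at hx hx'
        exact hx.2 hx'.1)]
      have h5 : ∏ j ∈ J, a j = (∏ j ∈ J \ J', a j) * ∏ j ∈ J ∩ J', a j := by
        rw [← Finset.prod_union (Finset.disjoint_sdiff_inter J J'),
          Finset.sdiff_union_inter]
      have h6 : ∏ j ∈ J', a j = (∏ j ∈ J' \ J, a j) * ∏ j ∈ J ∩ J', a j := by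
        rw [Finset.inter_comm, ← Finset.prod_union (Finset.disjoint_sdiff_inter J' J),
          Finset.sdiff_union_inter]
      rw [h5, h6]
      ring
    have h7 : ∏ j ∈ J ∩ J', a j ≠ 0 := Finset.prod_ne_zero_iff.2 fun j _ => ha0 j
    refine ha ((J \ J') ∪ (J' \ J)) ?_ ⟨q / ∏ j ∈ J ∩ J', a j, ?_⟩
    · rw [Finset.nonempty_iff_ne_empty]
      intro h8
      apply hne
      rw [Finset.union_eq_empty, Finset.sdiff_eq_empty_iff_subset,
        Finset.sdiff_eq_empty_iff_subset] at h8
      exact Finset.Subset.antisymm h8.1 h8.2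
    · rw [← mul_div_mul_comm, ← sq, ← sq, h3, h4, mul_div_assoc, div_self (pow_ne_zero 2 h7),
        mul_one]
  have hli : LinearIndependent L (fun J : Finset (Fin n) => (X J : Gal(L/ℚ) → L)) :=
    (linearIndependent_monoidHom Gal(L/ℚ) L).comp X hinj
  have : Fintype Gal(L/ℚ) := Fintype.ofFinite _
  have h1 := hli.fintype_card_le_finrank
  rw [Module.finrank_fintype_fun_eq_card, Fintype.card_finset, Fintype.card_fin] at h1
  rwa [Nat.card_eq_fintype_card]

end kummer

/-- **Primes with a nonsquare.** -/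
theorem multi {n : ℕ} {a : Fin n → ℚ} (ha : IndependentModSquares a) :
    ∃ (S : Set ℕ) (δ : ℝ), 1 - (1 / 2) ^ n ≤ δ ∧ HasPrimeDensity S δ ∧
      ∀ (l : ℕ) [Fact l.Prime], l ∈ S → ∃ j, ¬ IsSquare ((a j : ℚ) : ℚ_[l]) := by
  classical
  have ha0 : ∀ j, a j ≠ 0 := by
    intro j h0
    apply ha {j} (Finset.singleton_nonempty j)
    rw [Finset.prod_singleton, h0]
    exact ⟨0, by ring⟩
  set F : ℚ[X] := ∏ j, (X ^ 2 - C (a j)) with hF
  have hF0 : F ≠ 0 := Finset.prod_ne_zero_iff.2 fun j _ => (monic_X_pow_sub_C _ two_ne_zero).ne_zero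
  obtain ⟨L, iF, hN, hS⟩ := exists_splitting_rat F
  have hnorm : Normal ℚ L := Normal.of_isSplittingField F
  have hG : IsGalois ℚ L := {}
  -- the square roots
  have hroot : ∀ j, ∃ s : L, s ^ 2 = algebraMap ℚ L (a j) := by
    intro j
    have h1 : ((X ^ 2 - C (a j) : ℚ[X]).map (algebraMap ℚ L)).Splits :=
      (IsSplittingField.splits L F).of_dvd (Polynomial.map_ne_zero hF0)
        (Polynomial.map_dvd _ (Finset.dvd_prod_of_mem _ (Finset.mem_univ j)))
    obtain ⟨s, hs⟩ := h1.exists_eval_eq_zero (by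
      rw [degree_map, degree_X_pow_sub_C two_pos]
      exact two_ne_zero)
    refine ⟨s, ?_⟩
    rw [eval_map, eval₂_sub, eval₂_pow, eval₂_X, eval₂_C, sub_eq_zero] at hs
    exact hs
  choose s hs using hroot
  -- an automorphism fixing all square roots is trivial
  have hfix : ∀ c : Gal(L/ℚ), (∀ j, c (s j) = s j) → c = 1 := by
    intro c hc
    have hadj := IsSplittingField.adjoin_rootSet L F
    have h1 : ∀ x ∈ Algebra.adjoin ℚ (F.rootSet L), c x = x := by
      intro x hx
      induction hx using Algebra.adjoin_induction with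
      | mem x hx =>
        rw [mem_rootSet] at hx
        have h2 := hx.2
        rw [hF, map_prod, Finset.prod_eq_zero_iff] at h2
        obtain ⟨j, -, hj⟩ := h2
        rw [map_sub, map_pow, aeval_X, aeval_C, sub_eq_zero, ← hs j] at hj
        rcases sq_eq_sq_iff_eq_or_eq_neg.1 hj with h | h
        · rw [h, hc]
        · rw [h, map_neg, hc]
      | algebraMap r => exact AlgEquiv.commutes c r
      | add x y _ _ hx hy => rw [map_add, hx, hy]
      | mul x y _ _ hx hy => rw [map_mul, hx, hy]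
    apply AlgEquiv.ext
    intro x
    exact h1 x (by rw [hadj]; exact Algebra.mem_top)
  obtain ⟨D, hD, hDT⟩ := torsor L
  set m : ℕ := Nat.card Gal(L/ℚ) with hm
  have hm0 : 0 < m := Nat.card_pos
  have hmn : 2 ^ n ≤ m := card_gal_ge ha hs
  set S : Set ℕ := {l | ∃ h : l.Prime, (haveI : Fact l.Prime := ⟨h⟩; TorAt L l) ∧ xp L 1 l = 0}
    with hSdef
  have hcent : Nat.card {σ : Gal(L/ℚ) // σ⁻¹ * 1 * σ = 1} = m := by
    rw [hm]
    exact Nat.card_congr (Equiv.subtypeUnivEquiv fun σ => by simp)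
  refine ⟨S, 1 - (m : ℝ)⁻¹, ?_, ⟨fun l hl => hl.1, ?_⟩, ?_⟩
  · have h1 : (m : ℝ)⁻¹ ≤ (1 / 2) ^ n := by
      rw [one_div, inv_pow]
      apply inv_anti₀ (by positivity)
      exact_mod_cast hmn
    linarith
  · have h1 : Tendsto (M fun l => 1 + (-(m : ℝ)⁻¹) * (xp L 1 l : ℝ)) atTop
        (𝓝 (1 - (m : ℝ)⁻¹)) := by
      have h2 := (chebotarev L 1).const_mul (-(m : ℝ)⁻¹)
      have h3 : Tendsto (M fun _ : ℕ => (1 : ℝ)) atTop (𝓝 1) := by
        refine tendsto_const_nhds.congr' ?_
        filter_upwards [eventually_ge_atTop 2] with N hN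
        unfold M
        rw [Finset.sum_const, nsmul_eq_mul, mul_one]
        have h4 : (pr N).card = Nat.primeCounting N := by
          rw [Nat.primeCounting, Nat.primeCounting', Nat.count_eq_card_filter_range]
          rfl
        rw [h4]
        have h5 : 0 < Nat.primeCounting N := by
          rw [← h4, Finset.card_pos]
          exact ⟨2, mem_pr.2 ⟨hN, Nat.prime_two⟩⟩
        rw [div_self]
        exact_mod_cast h5.ne'
      have h4 := h3.add h2
      rw [show (1 : ℝ) + -(m : ℝ)⁻¹ * 1 = 1 - (m : ℝ)⁻¹ by ring] at h4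
      refine h4.congr fun N => ?_
      rw [M_add, M_smul]
      rfl
    have h3 : Tendsto (M fun l => if l ∈ S then (1 : ℝ) else 0) atTop (𝓝 (1 - (m : ℝ)⁻¹)) := by
      refine M_congr hD (fun l hl hlD => ?_) h1
      have : Fact l.Prime := ⟨hl⟩
      have hT := hDT l hlD
      by_cases hx : xp L 1 l = 0
      · rw [if_pos ⟨hl, hT, hx⟩, hx]
        simp
      · rw [if_neg (fun h => hx h.2.2), xp_const 1 hT hx, hcent]
        have : (m : ℝ) ≠ 0 := by exact_mod_cast hm0.ne'
        field_simp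
        ring
    refine h3.congr fun N => ?_
    unfold M
    congr 1
    rw [Finset.sum_ite, Finset.sum_const_zero, add_zero, Finset.sum_const, nsmul_eq_mul, mul_one]
    congr 1
    rw [← Set.ncard_coe_finset]
    congr 1
    ext l
    simp only [Finset.coe_filter, mem_pr, Set.mem_ofPred_eq, Set.mem_inter_iff, Set.mem_Iic]
    exact ⟨fun h => ⟨h.2, h.1.1⟩, fun h => ⟨⟨h.2, h.1.1⟩, h.1⟩⟩
  · intro l hl hlS
    by_contra hcon
    push Not at hcon
    obtain ⟨_, hT, hx⟩ := hlS
    obtain ⟨φ, c, hφ⟩ := exists_frob hT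
    obtain ⟨τ, e, hτ⟩ := local_frob F hT hφ
    have hc1 : c = 1 := by
      apply hfix
      intro j
      apply e.injective
      rw [← hτ]
      obtain ⟨b, hb⟩ := hcon j
      have h1 : (e (s j)) ^ 2 = (algebraMap ℚ_[l] (AlgebraicClosure ℚ_[l]) b) ^ 2 := by
        rw [← map_pow, hs, ← map_pow, sq b, ← hb]
        have h2 : ∀ q : ℚ, e (algebraMap ℚ L q) =
            algebraMap ℚ_[l] (AlgebraicClosure ℚ_[l]) (q : ℚ_[l]) := by
          intro q
          rw [← RingHom.comp_apply]
          have h3 := Subsingleton.elim (e.comp (algebraMap ℚ L))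
            ((algebraMap ℚ_[l] (AlgebraicClosure ℚ_[l])).comp (algebraMap ℚ ℚ_[l]))
          rw [h3, RingHom.comp_apply]
          simp
        exact h2 _
      rcases sq_eq_sq_iff_eq_or_eq_neg.1 h1 with h | h
      · rw [h, AlgEquiv.commutes]
      · rw [h, map_neg, AlgEquiv.commutes]
    subst hc1
    have h2 : xp L 1 l ≠ 0 := by
      unfold xp
      rw [dif_pos hl.out]
      have h3 : Finite {φ : 𝓞 L →+* AlgebraicClosure (ZMod l) // HasFrob l φ 1} := by
        have h4 : Finite (𝓞 L →+* AlgebraicClosure (ZMod l)) := by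
          have h5 : Nat.card (𝓞 L →+* AlgebraicClosure (ZMod l)) ≠ 0 := by
            rw [hT.1]
            exact hm0.ne'
          exact Nat.finite_of_card_ne_zero h5
        infer_instance
      have h4 : Nonempty {φ : 𝓞 L →+* AlgebraicClosure (ZMod l) // HasFrob l φ 1} := ⟨⟨φ, hφ⟩⟩
      exact Nat.card_pos.ne'
    exact h2 hx

end Pool.Agent.J6H2.TA
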