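import Pool.Agent.J6H2.TA.Bound
import Pool.Agent.J6H2.TA.Multi

/-!
# The density of the primes for which the Tate conjecture follows from discriminants
-/

set_option autoImplicit false

namespace Pool.Agent.J6H2.TA

open Polynomial Module Filter Topology Pool.Agent.J6H2.CL

/-- Removing finitely many primes does not change the density. -/
lemma density_remove {S : Set ℕ} {δ : ℝ} (h : HasPrimeDensity S δ) (B : ℕ) :
    HasPrimeDensity (S ∩ {l | B < l}) δ := by
  refine ⟨fun l hl => h.prime l hl.1, ?_⟩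
  have hpc : Tendsto (fun N : ℕ => (Nat.primeCounting N : ℝ)) atTop atTop :=
    tendsto_natCast_atTop_atTop.comp Nat.tendsto_primeCounting
  have h1 : Tendsto (fun N : ℕ => ((B + 1 : ℕ) : ℝ) / (Nat.primeCounting N : ℝ)) atTop (𝓝 0) :=
    tendsto_const_nhds.div_atTop hpc
  have h2 := h.tendsto.sub h1
  rw [sub_zero] at h2
  refine tendsto_of_tendsto_of_tendsto_of_le_of_le h2 h.tendsto (fun N => ?_) (fun N => ?_)
  · beta_reduce
    rw [← sub_div]
    apply div_le_div_of_nonneg_right _ (Nat.cast_nonneg _)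
    have hfin : ((S ∩ {l | B < l}) ∩ Set.Iic N).Finite := (Set.finite_Iic N).subset
      Set.inter_subset_right
    have hfin' : (Set.Iic B).Finite := Set.finite_Iic B
    have h3 : (S ∩ Set.Iic N).ncard ≤ ((S ∩ {l | B < l}) ∩ Set.Iic N).ncard + (B + 1) := by
      have h4 : S ∩ Set.Iic N ⊆ ((S ∩ {l | B < l}) ∩ Set.Iic N) ∪ Set.Iic B := by
        intro l hl
        by_cases h5 : B < l
        · exact Or.inl ⟨⟨hl.1, h5⟩, hl.2⟩
        · exact Or.inr (not_lt.1 h5)
      refine (Set.ncard_le_ncard h4 (hfin.union hfin')).trans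
        ((Set.ncard_union_le _ _).trans ?_)
      have h5 : (Set.Iic B).ncard = B + 1 := by
        rw [Set.ncard_eq_toFinset_card', Set.toFinset_Iic, Nat.card_Iic]
      rw [h5]
    have h4 : ((S ∩ Set.Iic N).ncard : ℝ) ≤ (((S ∩ {l | B < l}) ∩ Set.Iic N).ncard : ℝ) +
        ((B + 1 : ℕ) : ℝ) := by exact_mod_cast h3
    linarith
  · beta_reduce
    apply div_le_div_of_nonneg_right _ (Nat.cast_nonneg _)
    have h5 : (S ∩ {l | B < l}) ∩ Set.Iic N ⊆ S ∩ Set.Iic N := fun l hl => ⟨hl.1.1, hl.2⟩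
    exact_mod_cast Set.ncard_le_ncard h5 ((Set.finite_Iic N).subset Set.inter_subset_right)

/-- A set of primes containing sets of densities arbitrarily close to one has density one. -/
lemma density_one {S : Set ℕ} (hS : ∀ l ∈ S, l.Prime)
    (h : ∀ n : ℕ, ∃ (S' : Set ℕ) (δ : ℝ), 1 - (1 / 2) ^ n ≤ δ ∧ HasPrimeDensity S' δ ∧ S' ⊆ S) :
    HasPrimeDensity S 1 := by
  refine ⟨hS, ?_⟩
  have hle : ∀ N : ℕ, ((S ∩ Set.Iic N).ncard : ℝ) / (Nat.primeCounting N : ℝ) ≤ 1 := by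
    intro N
    by_cases h0 : Nat.primeCounting N = 0
    · rw [h0, Nat.cast_zero, div_zero]
      exact zero_le_one
    rw [div_le_one (by exact_mod_cast Nat.pos_of_ne_zero h0)]
    have h4 : Nat.primeCounting N = ({l : ℕ | l.Prime} ∩ Set.Iic N).ncard := by
      rw [Nat.primeCounting, Nat.primeCounting', Nat.count_eq_card_filter_range,
        ← Set.ncard_coe_finset]
      congr 1
      ext l
      simp [and_comm, Nat.lt_succ_iff]
    rw [h4]
    have h5 : S ∩ Set.Iic N ⊆ {l : ℕ | l.Prime} ∩ Set.Iic N := fun l hl => ⟨hS l hl.1, hl.2⟩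
    exact_mod_cast Set.ncard_le_ncard h5 ((Set.finite_Iic N).subset Set.inter_subset_right)
  rw [Metric.tendsto_atTop]
  intro ε hε
  obtain ⟨n, hn⟩ := exists_pow_lt_of_lt_one (half_pos hε) (by norm_num : (1 / 2 : ℝ) < 1)
  obtain ⟨S', δ, hδ, hS', hsub⟩ := h n
  obtain ⟨N₀, hN₀⟩ := (Metric.tendsto_atTop.1 hS'.tendsto) (ε / 2) (half_pos hε)
  refine ⟨N₀, fun N hN => ?_⟩
  have h1 := hN₀ N hN
  rw [Real.dist_eq, abs_lt] at h1
  have h2 : ((S' ∩ Set.Iic N).ncard : ℝ) / (Nat.primeCounting N : ℝ) ≤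
      ((S ∩ Set.Iic N).ncard : ℝ) / (Nat.primeCounting N : ℝ) := by
    apply div_le_div_of_nonneg_right _ (Nat.cast_nonneg _)
    have h5 : S' ∩ Set.Iic N ⊆ S ∩ Set.Iic N := fun l hl => ⟨hsub hl.1, hl.2⟩
    exact_mod_cast Set.ncard_le_ncard h5 ((Set.finite_Iic N).subset Set.inter_subset_right)
  have h3 := hle N
  rw [Real.dist_eq, abs_lt]
  constructor
  · linarith [h1.1]
  · linarith

variable {G : Type} [Group G]

/-- **Density from finitely many places.** -/
theorem density_below (D : ∀ (l : ℕ) [Fact l.Prime], SurfaceData G ℚ_[l]) {m n : ℕ} {v : Place G}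
    {w : Fin n → Place G} (hv : v.C.natDegree = m) (hw : ∀ j, (w j).C.natDegree = m)
    (hvD : ∃ B : ℕ, ∀ (l : ℕ) [Fact l.Prime], B < l → (D l).HasPlace v)
    (hwD : ∀ j, ∃ B : ℕ, ∀ (l : ℕ) [Fact l.Prime], B < l → (D l).HasPlace (w j))
    (hind : IndependentModSquares fun j => v.disc * (w j).disc) :
    ∃ (S : Set ℕ) (δ : ℝ), 1 - (1 / 2) ^ n ≤ δ ∧ HasPrimeDensity S δ ∧
      ∀ (l : ℕ) [Fact l.Prime], l ∈ S → (D l).DefectBelow m := by
  classical
  obtain ⟨S, δ, hδ, hS, hmain⟩ := multi hind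
  obtain ⟨B₀, hB₀⟩ := hvD
  choose B hB using hwD
  refine ⟨S ∩ {l | B₀ + ∑ j, B j < l}, δ, hδ, density_remove hS _, fun l hl hlS => ?_⟩
  have hlB : B₀ + ∑ j, B j < l := hlS.2
  obtain ⟨j, hj⟩ := hmain l hlS.1
  refine (D l).defectBelow (hB₀ l (by omega)) (hB j l ?_) hv (hw j) hj
  have h1 : B j ≤ ∑ j, B j := Finset.single_le_sum (fun i _ => Nat.zero_le _) (Finset.mem_univ j)
  omega

end Pool.Agent.J6H2.TA
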