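import Mathlib
import Pool.Agent.Helper929.Pfaffian

/-!
# Discriminants and isometries without the eigenvalues `1` and `-1`
-/

set_option autoImplicit false

namespace Pool.Agent.J6H2.TA

open Polynomial Matrix

section mat

variable {K : Type*} [Field K] [CharZero K] {n : ℕ}

/-- The determinant of an isometry without eigenvalue `-1` is one. -/
lemma det_isometry {A F : Matrix (Fin n) (Fin n) K} (h : Fᵀ * A * F = A) (hA : A.det ≠ 0)
    (hF : (F + 1).det ≠ 0) : F.det = 1 := by
  have h1 : Fᵀ * A * (F + 1) = (F + 1)ᵀ * A := by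
    rw [mul_add, h, mul_one, transpose_add, transpose_one, add_mul, one_mul, add_comm]
  have h2 := congrArg Matrix.det h1
  rw [det_mul, det_mul, det_mul, det_transpose, det_transpose] at h2
  have h3 : (F.det - 1) * (A.det * (F + 1).det) = 0 := by linear_combination h2
  rcases mul_eq_zero.1 h3 with h4 | h4
  · exact sub_eq_zero.1 h4
  · exact absurd h4 (mul_ne_zero hA hF)

/-- **The discriminant of a quadratic space with an isometry `F` without the eigenvalues `1` and `-1`
is `det (F - 1) * det (F + 1)`**, up to squares. -/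
theorem isSquare_disc {A F : Matrix (Fin n) (Fin n) K} (hA : Aᵀ = A) (h : Fᵀ * A * F = A) :
    IsSquare (A.det * ((F - 1).det * (F + 1).det)) := by
  by_cases h0 : A.det = 0
  · rw [h0, zero_mul]
    exact ⟨0, by ring⟩
  by_cases h1 : (F + 1).det = 0
  · rw [h1, mul_zero, mul_zero]
    exact ⟨0, by ring⟩
  have h2 := det_isometry h h0 h1
  set S : Matrix (Fin n) (Fin n) K := Fᵀ * A - A * F with hS
  have hskew : ∀ i j, S i j = -S j i := by
    have h3 : Sᵀ = -S := by
      rw [hS, transpose_sub, transpose_mul, transpose_mul, transpose_transpose, hA, neg_sub]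
    intro i j
    have h4 := congrFun (congrFun h3 j) i
    rw [transpose_apply, neg_apply] at h4
    exact h4
  have h3 : Fᵀ * S = ((F - 1) * (F + 1))ᵀ * A := by
    rw [hS, mul_sub, ← mul_assoc Fᵀ A F, h]
    have h4 : (F - 1) * (F + 1) = F * F - 1 := by noncomm_ring
    rw [h4, transpose_sub, transpose_mul, transpose_one, sub_mul, one_mul, mul_assoc]
  have h4 := congrArg Matrix.det h3
  rw [det_mul, det_mul, det_transpose, det_transpose, det_mul, h2, one_mul] at h4
  refine ⟨Pool.Agent.Helper929.pf n S, ?_⟩
  rw [← sq, Pool.Agent.Helper929.pf_sq n S hskew, h4]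
  ring

end mat

section space

variable {K : Type*} [Field K] [CharZero K] {U : Type*} [AddCommGroup U] [Module K U]
  [Module.Finite K U]

/-- The value of the characteristic polynomial at `1` and `-1`. -/
lemma eval_charpoly_one {n : ℕ} (F : Matrix (Fin n) (Fin n) K) :
    F.charpoly.eval 1 * F.charpoly.eval (-1) = (F - 1).det * (F + 1).det := by
  rw [Matrix.eval_charpoly, Matrix.eval_charpoly]
  have h1 : Matrix.scalar (Fin n) (1 : K) - F = -(F - 1) := by
    rw [map_one, neg_sub]
  have h2 : Matrix.scalar (Fin n) (-1 : K) - F = -(F + 1) := by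
    rw [map_neg, map_one, neg_add, add_comm, sub_eq_add_neg]
  rw [h1, h2, det_neg, det_neg]
  have h3 : ((-1 : K) ^ Fintype.card (Fin n)) * ((-1 : K) ^ Fintype.card (Fin n)) = 1 := by
    rw [← mul_pow]
    norm_num
  linear_combination (F - 1).det * (F + 1).det * h3

/-- Two isometries of the same quadratic space. -/
theorem isSquare_two {B : LinearMap.BilinForm K U} (hs : ∀ x y, B x y = B y x)
    (hn : ∀ x, (∀ y, B x y = 0) → x = 0) {f g : Module.End K U}
    (hf : ∀ x y, B (f x) (f y) = B x y) (hg : ∀ x y, B (g x) (g y) = B x y) :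
    IsSquare (f.charpoly.eval 1 * f.charpoly.eval (-1) *
      (g.charpoly.eval 1 * g.charpoly.eval (-1))) := by
  classical
  set β := Module.finBasis K U with hβ
  set A := LinearMap.BilinForm.toMatrix β B with hA
  have hAt : Aᵀ = A := by
    ext i j
    rw [transpose_apply, hA, LinearMap.BilinForm.toMatrix_apply,
      LinearMap.BilinForm.toMatrix_apply, hs]
  have hdet : A.det ≠ 0 := by
    intro h0
    obtain ⟨v, hv, hv'⟩ := Matrix.exists_mulVec_eq_zero_iff.2 h0
    apply hv
    have h1 : (∑ i, v i • β i) = 0 := by
      apply hn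
      intro y
      rw [← β.sum_repr y, map_sum]
      apply Finset.sum_eq_zero
      intro j _
      rw [map_smul, smul_eq_mul]
      have h2 : B (∑ i, v i • β i) (β j) = A.mulVec v j := by
        rw [hs, map_sum, Matrix.mulVec, dotProduct]
        apply Finset.sum_congr rfl
        intro i _
        rw [map_smul, smul_eq_mul, hA, LinearMap.BilinForm.toMatrix_apply, mul_comm]
      rw [h2, hv']
      simp
    have h2 := β.linearIndependent
    rw [Fintype.linearIndependent_iff] at h2
    exact funext (h2 v h1)
  have key : ∀ f : Module.End K U, (∀ x y, B (f x) (f y) = B x y) →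
      IsSquare (A.det * (f.charpoly.eval 1 * f.charpoly.eval (-1))) := by
    intro f hf
    rw [← LinearMap.charpoly_toMatrix f β, eval_charpoly_one]
    apply isSquare_disc hAt
    have h1 : B.comp f f = B := by
      ext x y
      exact hf x y
    rw [hA, ← LinearMap.BilinForm.toMatrix_comp, h1]
  obtain ⟨s, hs'⟩ := key f hf
  obtain ⟨t, ht⟩ := key g hg
  refine ⟨s * t / A.det, ?_⟩
  field_simp
  linear_combination (g.charpoly.eval 1 * g.charpoly.eval (-1) * A.det) * hs' + s * s * ht

end space

end Pool.Agent.J6H2.TA
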