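import Pool.Agent.J6H2.CL.Gal2

/-!
# Frobenius elements of splitting fields in the local Galois group
-/

set_option autoImplicit false

namespace Pool.Agent.J6H2.TA

open NumberField Pool.Agent.W401.Cheb Polynomial Pool.Agent.J6H2.CL

/-- A Frobenius element comes from the local Galois group. -/
theorem local_frob (F : ℚ[X]) {L : Type} [Field L] [NumberField L] [IsGalois ℚ L]
    [hS : IsSplittingField ℚ L F] {l : ℕ} [hl : Fact l.Prime] (hT : TorAt L l)
    {φ : 𝓞 L →+* AlgebraicClosure (ZMod l)} {c : Gal(L/ℚ)} (hφ : HasFrob l φ c) :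
    ∃ (τ : AlgebraicClosure ℚ_[l] ≃ₐ[ℚ_[l]] AlgebraicClosure ℚ_[l])
      (e : L →+* AlgebraicClosure ℚ_[l]), ∀ x, τ (e x) = e (c x) := by
  classical
  -- the local field
  set Fl : ℚ_[l][X] := F.map (algebraMap ℚ ℚ_[l]) with hFl
  obtain ⟨M, iM, iAM, hSM⟩ := exists_splitting Fl
  let : Algebra ℤ_[l] M := ((algebraMap ℚ_[l] M).comp (algebraMap ℤ_[l] ℚ_[l])).toAlgebra
  have : IsScalarTower ℤ_[l] ℚ_[l] M := IsScalarTower.of_algebraMap_eq' rfl
  have hcz : CharZero M := charZero_of_injective_algebraMap (algebraMap ℚ_[l] M).injective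
  have hfM : FiniteDimensional ℚ_[l] M := IsSplittingField.finiteDimensional M Fl
  have hnM : Normal ℚ_[l] M := Normal.of_isSplittingField Fl
  have hGM : IsGalois ℚ_[l] M := {}
  have hsp : (F.map (algebraMap ℚ M)).Splits := by
    have h1 : (Fl.map (algebraMap ℚ_[l] M)).Splits := IsSplittingField.splits M Fl
    rw [hFl, Polynomial.map_map] at h1
    rwa [Subsingleton.elim (algebraMap ℚ M) ((algebraMap ℚ_[l] M).comp (algebraMap ℚ ℚ_[l]))]
  set ι : L →+* M := (IsSplittingField.lift L F hsp).toRingHom with hι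
  obtain ⟨τ, σ, hτ⟩ := exists_local ι hT hφ
  let e : M →ₐ[ℚ_[l]] AlgebraicClosure ℚ_[l] := IsAlgClosed.lift
  let : Algebra M (AlgebraicClosure ℚ_[l]) := e.toRingHom.toAlgebra
  have : IsScalarTower ℚ_[l] M (AlgebraicClosure ℚ_[l]) := IsScalarTower.of_algebraMap_eq'
    e.comp_algebraMap.symm
  refine ⟨τ.liftNormal (AlgebraicClosure ℚ_[l]), (e.toRingHom.comp ι).comp
    (σ : L ≃+* L).toRingHom, fun x => ?_⟩
  have h1 : (τ.liftNormal (AlgebraicClosure ℚ_[l])) (e (ι (σ x))) = e (τ (ι (σ x))) :=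
    AlgEquiv.liftNormal_commutes τ (AlgebraicClosure ℚ_[l]) (ι (σ x))
  change (τ.liftNormal (AlgebraicClosure ℚ_[l])) (e (ι (σ x))) = e (ι (σ (c x)))
  rw [h1, hτ, AlgEquiv.mul_apply, AlgEquiv.mul_apply, ← AlgEquiv.mul_apply σ⁻¹ σ x,
    inv_mul_cancel, AlgEquiv.one_apply]

/-- Each homomorphism to the residue field has a Frobenius element. -/
lemma exists_frob {L : Type} [Field L] [NumberField L] [IsGalois ℚ L] {l : ℕ}
    [hl : Fact l.Prime] (hT : TorAt L l) :
    ∃ (φ : 𝓞 L →+* AlgebraicClosure (ZMod l)) (c : Gal(L/ℚ)), HasFrob l φ c := by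
  obtain ⟨h1, h2, -⟩ := hT
  have : Nonempty (𝓞 L →+* AlgebraicClosure (ZMod l)) := by
    have h3 : 0 < Nat.card Gal(L/ℚ) := Nat.card_pos
    rw [← h1] at h3
    exact (Nat.card_pos_iff.1 h3).1
  obtain ⟨φ⟩ := this
  have : CharP (AlgebraicClosure (ZMod l)) l := inferInstance
  have : ExpChar (AlgebraicClosure (ZMod l)) l := ExpChar.prime hl.out
  obtain ⟨c, hc, -⟩ := h2 φ ((frobenius (AlgebraicClosure (ZMod l)) l).comp φ)
  refine ⟨φ, c, fun x => ?_⟩
  rw [← hc x]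
  rfl

end Pool.Agent.J6H2.TA
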